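import Pool.Agent.TH229.Coin.Defs

set_option autoImplicit false

/-! A homeomorphism between open annuli lifts to the universal covers. -/

namespace Pool.Agent.TH347.CoinLift

open Pool.Agent.H738R2.Cyl Complex Pool.Agent.TH229.Coin

instance lpc_Ioo (a b : ℝ) : LocallyPathConnectedSpace (Set.Ioo a b) :=
  isOpen_Ioo.locallyPathConnectedSpace

instance contr_Ioo : ContractibleSpace (Set.Ioo (0 : ℝ) Real.pi) :=
  (convex_Ioo 0 Real.pi).contractibleSpace ⟨1, by constructor <;> linarith [Real.pi_gt_three]⟩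

/-- lifting of the first coordinate -/
lemma exists_lift {A F : Type} [TopologicalSpace A] [TopologicalSpace F] [SimplyConnectedSpace A]
    [LocallyPathConnectedSpace A] (L : ℝ) (f : A → AddCircle L × F) (hf : Continuous f) (a₀ : A)
    (e₀ : ℝ) (he : (e₀ : AddCircle L) = (f a₀).1) :
    ∃ G : A → ℝ × F, Continuous G ∧ (G a₀).1 = e₀ ∧
      ∀ a, (((G a).1 : AddCircle L), (G a).2) = f a := by
  obtain ⟨F, ⟨h1, h2⟩, -⟩ := (AddCircle.isCoveringMap_coe L).existsUnique_continuousMap_lifts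
    ⟨fun a => (f a).1, hf.fst⟩ a₀ e₀ he
  exact ⟨fun a => (F a, (f a).2), F.continuous.prodMk hf.snd, h1, fun a =>
    Prod.ext (congrFun h2 a) rfl⟩

/-- uniqueness of lifts -/
lemma unique_lift {A : Type} [TopologicalSpace A] [PreconnectedSpace A] (L : ℝ) {f g : A → ℝ}
    (hf : Continuous f) (hg : Continuous g) (h : ∀ a, (f a : AddCircle L) = (g a : AddCircle L))
    (a₀ : A) (h0 : f a₀ = g a₀) : f = g :=
  (AddCircle.isCoveringMap_coe L).eq_of_comp_eq hf hg (funext h) a₀ h0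

theorem lift {L : ℝ} (hL : 0 < L) (h : PhaseCylinder L ≃ₜ AddCircle L × ℝ) :
    ∃ H : (ℝ × Set.Ioo (0 : ℝ) Real.pi) ≃ₜ (ℝ × ℝ),
      ∀ z : ℝ × Set.Ioo (0 : ℝ) Real.pi, (H z).2 = (h ((z.1 : AddCircle L), z.2)).2 := by
  have hpi := Real.pi_pos
  have hq : Continuous fun x : ℝ => (x : AddCircle L) := (AddCircle.isCoveringMap_coe L).continuous
  obtain ⟨z0, hz0⟩ : ∃ z0 : ℝ × Set.Ioo (0 : ℝ) Real.pi, z0.1 = 0 :=
    ⟨(0, ⟨Real.pi / 2, by constructor <;> linarith⟩), rfl⟩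
  obtain ⟨p1, hp1⟩ : ∃ p1 : ℝ × Set.Ioo (0 : ℝ) Real.pi → PhaseCylinder L,
      p1 = fun z => ((z.1 : AddCircle L), z.2) := ⟨_, rfl⟩
  obtain ⟨p2, hp2⟩ : ∃ p2 : ℝ × ℝ → AddCircle L × ℝ,
      p2 = fun z => ((z.1 : AddCircle L), z.2) := ⟨_, rfl⟩
  have hc1 : Continuous p1 := by
    rw [hp1]
    exact (hq.comp continuous_fst).prodMk continuous_snd
  have hc2 : Continuous p2 := by
    rw [hp2]
    exact (hq.comp continuous_fst).prodMk continuous_snd
  obtain ⟨w0, hw0⟩ : ∃ w0 : ℝ, (w0 : AddCircle L) = (h (p1 z0)).1 :=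
    QuotientAddGroup.mk_surjective _
  obtain ⟨H, hH, hH0, hHf⟩ := exists_lift L (fun z => h (p1 z)) (h.continuous.comp hc1) z0 w0 hw0
  have hHf' : ∀ z, p2 (H z) = h (p1 z) := fun z => by
    rw [← hHf z, hp2]
  have hy0 : h.symm (p2 (H z0)) = p1 z0 := by
    rw [hHf', h.symm_apply_apply]
  obtain ⟨G, hG, hG0, hGf⟩ := exists_lift L (fun z => h.symm (p2 z)) (h.symm.continuous.comp hc2)
    (H z0) 0 (by
      show ((0 : ℝ) : AddCircle L) = (h.symm (p2 (H z0))).1
      rw [hy0, hp1]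
      show ((0 : ℝ) : AddCircle L) = ((z0.1 : ℝ) : AddCircle L)
      rw [hz0])
  have hGf' : ∀ y, p1 (G y) = h.symm (p2 y) := fun y => by
    rw [← hGf y, hp1]
  have e1 : ∀ z, p1 (G (H z)) = p1 z := fun z => by
    rw [hGf', hHf', h.symm_apply_apply]
  have e2 : ∀ y, p2 (H (G y)) = p2 y := fun y => by
    rw [hHf', hGf', h.apply_symm_apply]
  have e1a : ∀ z, (((G (H z)).1 : ℝ) : AddCircle L) = ((z.1 : ℝ) : AddCircle L) := fun z => by
    have := congrArg Prod.fst (e1 z)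
    rw [hp1] at this
    exact this
  have e1b : ∀ z, (G (H z)).2 = z.2 := fun z => by
    have := congrArg Prod.snd (e1 z)
    rw [hp1] at this
    exact this
  have e2a : ∀ y, (((H (G y)).1 : ℝ) : AddCircle L) = ((y.1 : ℝ) : AddCircle L) := fun y => by
    have := congrArg Prod.fst (e2 y)
    rw [hp2] at this
    exact this
  have e2b : ∀ y, (H (G y)).2 = y.2 := fun y => by
    have := congrArg Prod.snd (e2 y)
    rw [hp2] at this
    exact this
  have l1 := unique_lift L (f := fun z => (G (H z)).1) (g := fun z => z.1)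
    (continuous_fst.comp (hG.comp hH)) continuous_fst e1a z0 (by
      show (G (H z0)).1 = z0.1
      rw [hG0, hz0])
  have hGH : ∀ z, G (H z) = z := fun z => Prod.ext (congrFun l1 z) (e1b z)
  have l2 := unique_lift L (f := fun y => (H (G y)).1) (g := fun y => y.1)
    (continuous_fst.comp (hH.comp hG)) continuous_fst e2a (H z0) (by
      show (H (G (H z0))).1 = (H z0).1
      rw [hGH])
  have hHG : ∀ y, H (G y) = y := fun y => Prod.ext (congrFun l2 y) (e2b y)
  refine ⟨⟨⟨H, G, hGH, hHG⟩, hH, hG⟩, fun z => ?_⟩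
  have := congrArg Prod.snd (hHf z)
  rw [hp1] at this
  exact this

end Pool.Agent.TH347.CoinLift
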